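import Pool.Agent.Work.MP_91aed7_am.Interface

/-!
# Block FLD: matrices of determinant one over a field are stably elementary
-/

set_option autoImplicit false

namespace Pool.AM

namespace FLD_

variable {ι : Type} [Fintype ι] [DecidableEq ι] {k : Type} [Field k]

theorem tr_mem (i j : ι) (h : i ≠ j) (c : k) : Matrix.transvection i j c ∈ EL ι k :=
  Submonoid.subset_closure ⟨i, j, c, h, rfl⟩

theorem det_mem {M : Matrix ι ι k} (hM : M ∈ EL ι k) : M.det = 1 := by
  unfold EL at hM
  induction hM using Submonoid.closure_induction with
  | mem x hx =>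
    obtain ⟨i, j, c, h, rfl⟩ := hx
    exact Matrix.det_transvection_of_ne i j h c
  | one => exact Matrix.det_one
  | mul x y _ _ hx hy => rw [Matrix.det_mul, hx, hy, mul_one]

theorem two_mem (i j : ι) (h : i ≠ j) (a : k) (ha : a ≠ 0) :
    Matrix.diagonal (fun x => if x = i then a else if x = j then a⁻¹ else 1) ∈ EL ι k := by
  have key : Matrix.diagonal (fun x => if x = i then a else if x = j then a⁻¹ else 1)
      = Matrix.transvection i j a * (Matrix.transvection j i (-a⁻¹) *
        (Matrix.transvection i j a * (Matrix.transvection i j (-1) *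
          (Matrix.transvection j i 1 * (Matrix.transvection i j (-1) *
            (1 : Matrix ι ι k)))))) := by
    ext x y
    by_cases hx : x = i
    · subst hx
      simp only [Matrix.transvection_mul_apply_same,
        Matrix.transvection_mul_apply_of_ne _ _ _ _ h,
        Matrix.transvection_mul_apply_of_ne _ _ _ _ h.symm,
        Matrix.diagonal_apply, Matrix.one_apply]
      by_cases h1 : x = y
      · subst h1
        simp [h.symm]
        field_simp
        right
        ring
      · by_cases h2 : j = y
        · subst h2
          simp [h1]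
          field_simp
          simp
        · simp [h1, h2]
    · by_cases hy : x = j
      · subst hy
        simp only [Matrix.transvection_mul_apply_same,
          Matrix.transvection_mul_apply_of_ne _ _ _ _ h,
          Matrix.transvection_mul_apply_of_ne _ _ _ _ h.symm,
          Matrix.diagonal_apply, Matrix.one_apply]
        by_cases h1 : i = y
        · subst h1
          simp [h.symm]
          field_simp
          ring
        · by_cases h2 : x = y
          · subst h2
            simp [h, hx]
          · simp [h1, h2]
      · simp only [Matrix.transvection_mul_apply_of_ne _ _ _ _ hx,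
          Matrix.transvection_mul_apply_of_ne _ _ _ _ hy,
          Matrix.diagonal_apply, Matrix.one_apply]
        simp [hx, hy]
  rw [key]
  exact mul_mem (tr_mem i j h _) (mul_mem (tr_mem j i h.symm _) (mul_mem (tr_mem i j h _)
    (mul_mem (tr_mem i j h _) (mul_mem (tr_mem j i h.symm _) (mul_mem (tr_mem i j h _)
      (one_mem _))))))

open scoped Classical in
theorem diag_mem : ∀ (n : ℕ) (D : ι → k), ∏ x, D x = 1 →
    (Finset.univ.filter fun x => D x ≠ 1).card ≤ n → Matrix.diagonal D ∈ EL ι k := by
  intro n
  induction n with
  | zero =>
    intro D _ hc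
    have h0 : ∀ x, D x = 1 := by
      intro x
      by_contra hx
      have : x ∈ (Finset.univ.filter fun x => D x ≠ 1) := by simp [hx]
      have := Finset.card_pos.2 ⟨x, this⟩
      omega
    have : D = fun _ => 1 := funext h0
    rw [this, Matrix.diagonal_one]
    exact one_mem _
  | succ n ih =>
    intro D hD hc
    by_cases hall : ∀ x, D x = 1
    · have : D = fun _ => 1 := funext hall
      rw [this, Matrix.diagonal_one]
      exact one_mem _
    push Not at hall
    obtain ⟨i, hi⟩ := hall
    have hne : ∀ x, D x ≠ 0 := by
      intro x hx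
      rw [Finset.prod_eq_zero (Finset.mem_univ x) hx] at hD
      exact zero_ne_one hD
    obtain ⟨j, hji, hj⟩ : ∃ j, j ≠ i ∧ D j ≠ 1 := by
      by_contra hcon
      push Not at hcon
      rw [Finset.prod_eq_single i (fun b _ hb => hcon b hb)
        (fun h => absurd (Finset.mem_univ i) h)] at hD
      exact hi hD
    let D' : ι → k := fun x => if x = i then 1 else if x = j then D i * D j else D x
    have hfac : Matrix.diagonal D
        = Matrix.diagonal (fun x => if x = i then D i else if x = j then (D i)⁻¹ else 1)
          * Matrix.diagonal D' := by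
      rw [Matrix.diagonal_mul_diagonal]
      congr 1
      funext x
      by_cases hx : x = i
      · simp [D', hx]
      · by_cases hx2 : x = j
        · subst hx2
          simp only [D', if_neg hx, if_true]
          rw [← mul_assoc, inv_mul_cancel₀ (hne i), one_mul]
        · simp [D', hx, hx2]
    have hW := two_mem i j hji.symm (D i) (hne i)
    have hD' : ∏ x, D' x = 1 := by
      have h1 := congrArg Matrix.det hfac
      rw [Matrix.det_mul, det_mem hW, Matrix.det_diagonal, Matrix.det_diagonal, one_mul, hD] at h1
      exact h1.symm
    rw [hfac]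
    refine mul_mem hW (ih D' hD' ?_)
    have hss : (Finset.univ.filter fun x => D' x ≠ 1)
        ⊂ (Finset.univ.filter fun x => D x ≠ 1) := by
      rw [Finset.ssubset_iff_of_subset]
      · refine ⟨i, by simp [hi], by simp [D']⟩
      · intro x hx
        simp only [Finset.mem_filter, Finset.mem_univ, true_and] at hx ⊢
        by_cases hx1 : x = i
        · subst hx1; exact hi
        · by_cases hx2 : x = j
          · subst hx2; exact hj
          · simpa [D', hx1, hx2] using hx
    have := Finset.card_lt_card hss
    omega

theorem list_mem (L : List (Matrix.TransvectionStruct ι k)) :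
    (L.map Matrix.TransvectionStruct.toMatrix).prod ∈ EL ι k := by
  induction L with
  | nil => simp
  | cons t L IH =>
    rw [List.map_cons, List.prod_cons]
    exact mul_mem (tr_mem t.i t.j t.hij t.c) IH

theorem mem_of_det {M : Matrix ι ι k} (hM : M.det = 1) : M ∈ EL ι k := by
  obtain ⟨L, L', D, hLD⟩ := Matrix.Pivot.exists_list_transvec_mul_diagonal_mul_list_transvec M
  rw [hLD] at hM ⊢
  rw [Matrix.det_mul, Matrix.det_mul, Matrix.TransvectionStruct.det_toMatrix_prod,
    Matrix.TransvectionStruct.det_toMatrix_prod, Matrix.det_diagonal, one_mul, mul_one] at hM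
  exact mul_mem (mul_mem (list_mem L) (diag_mem _ D hM le_rfl)) (list_mem L')

theorem blocks_mem {κ : Type} [Fintype κ] [DecidableEq κ] {M : Matrix ι ι k} (hM : M ∈ EL ι k) :
    Matrix.fromBlocks M 0 0 (1 : Matrix κ κ k) ∈ EL (ι ⊕ κ) k := by
  unfold EL at hM
  induction hM using Submonoid.closure_induction with
  | mem x hx =>
    obtain ⟨i, j, c, h, rfl⟩ := hx
    have := Matrix.TransvectionStruct.toMatrix_sumInl (p := κ)
      (⟨i, j, h, c⟩ : Matrix.TransvectionStruct ι k)
    have h2 : (Matrix.TransvectionStruct.toMatrix ⟨i, j, h, c⟩ : Matrix ι ι k)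
        = Matrix.transvection i j c := rfl
    rw [h2] at this
    rw [← this]
    exact Submonoid.subset_closure ⟨Sum.inl i, Sum.inl j, c, fun h' => h (Sum.inl_injective h'),
      rfl⟩
  | one => rw [Matrix.fromBlocks_one]; exact one_mem _
  | mul x y _ _ hx hy =>
    have : Matrix.fromBlocks (x * y) 0 0 (1 : Matrix κ κ k)
        = Matrix.fromBlocks x 0 0 (1 : Matrix κ κ k) * Matrix.fromBlocks y 0 0 1 := by
      rw [Matrix.fromBlocks_multiply]
      simp
    rw [this]
    exact mul_mem hx hy

end FLD_

theorem stmt_FLD : Stmt_FLD := by
  intro k _ ι _ _ M hM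
  exact ⟨0, FLD_.blocks_mem (FLD_.mem_of_det hM)⟩

end Pool.AM
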