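import Pool.Agent.Work.MP_91aed7_am.Interface

/-!
# Block FLL: automorphisms in finitely many variables
-/

set_option autoImplicit false

namespace Pool.AM

open MvPolynomial

namespace FLL_

variable {k : Type} [Field k] {σ : Type}

theorem map_supported (α : MvPolynomial σ k →ₐ[k] MvPolynomial σ k) (s t : Set σ)
    (h : ∀ v ∈ s, α (X v) ∈ supported k t) {f : MvPolynomial σ k} (hf : f ∈ supported k s) :
    α f ∈ supported k t := by
  have : supported k s ≤ (supported k t).comap α := by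
    rw [supported]
    refine Algebra.adjoin_le ?_
    rintro _ ⟨v, hv, rfl⟩
    exact h v hv
  exact this hf

theorem fix_supported (α : MvPolynomial σ k →ₐ[k] MvPolynomial σ k) (s : Set σ)
    (h : ∀ v ∈ s, α (X v) = X v) {f : MvPolynomial σ k} (hf : f ∈ supported k s) :
    α f = f := by
  have : supported k s ≤ AlgHom.equalizer α (AlgHom.id k _) := by
    rw [supported]
    refine Algebra.adjoin_le ?_
    rintro _ ⟨v, hv, rfl⟩
    exact h v hv
  exact this hf

theorem X_mem {s : Set σ} {v : σ} (hv : v ∈ s) : (X v : MvPolynomial σ k) ∈ supported k s :=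
  Algebra.subset_adjoin ⟨v, hv, rfl⟩

theorem low_mono {n L L' : ℕ} (h : L ≤ L') : low n L ⊆ low n L' :=
  fun _ hv j hj => lt_of_lt_of_le (hv j hj) h

theorem exists_low (n : ℕ) (s : Finset (Vr n)) : ∃ L, ∀ v ∈ s, v ∈ low n L := by
  refine ⟨s.sup (Sum.elim (fun _ => 0) (fun j => j + 1)), ?_⟩
  intro v hv j hj
  have := Finset.le_sup (f := (Sum.elim (fun _ => 0) (fun j => j + 1) : Vr n → ℕ)) hv
  rw [hj] at this
  simp only [Sum.elim_inr] at this
  omega

theorem symm_fix {τ : MvPolynomial σ k ≃ₐ[k] MvPolynomial σ k} {v : σ} (h : τ (X v) = X v) :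
    τ.symm (X v) = X v := by
  rw [AlgEquiv.symm_apply_eq, h]

variable {n : ℕ}

theorem mono {L L' : ℕ} {θ : PS k n ≃ₐ[k] PS k n} (hL : L ≤ L') (h : FL L θ) : FL L' θ := by
  refine ⟨?_, fun v hv => h.2 v fun hv' => hv (low_mono hL hv')⟩
  intro v hv
  by_cases hv' : v ∈ low n L
  · exact ⟨supported_mono (low_mono hL) (h.1 v hv').1, supported_mono (low_mono hL) (h.1 v hv').2⟩
  · have := h.2 v hv'
    rw [this, symm_fix this]
    exact ⟨X_mem hv, X_mem hv⟩

theorem inv {L : ℕ} {θ : PS k n ≃ₐ[k] PS k n} (h : FL L θ) : FL L θ⁻¹ := by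
  refine ⟨fun v hv => ⟨(h.1 v hv).2, (h.1 v hv).1⟩, fun v hv => symm_fix (h.2 v hv)⟩

theorem mul {L : ℕ} {θ θ' : PS k n ≃ₐ[k] PS k n} (h : FL L θ) (h' : FL L θ') :
    FL L (θ * θ') := by
  refine ⟨fun v hv => ⟨?_, ?_⟩, fun v hv => ?_⟩
  · exact map_supported (θ : PS k n →ₐ[k] PS k n) _ _ (fun w hw => (h.1 w hw).1) (h'.1 v hv).1
  · exact map_supported (θ'.symm : PS k n →ₐ[k] PS k n) _ _ (fun w hw => (h'.1 w hw).2)
      (h.1 v hv).2
  · rw [AlgEquiv.mul_apply, h'.2 v hv, h.2 v hv]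

theorem el {τ : PS k n ≃ₐ[k] PS k n} (h : IsEl τ) : ∃ L, FL L τ := by
  classical
  obtain ⟨i, f, hi, h1, h2⟩ := h
  obtain ⟨L, hL⟩ := exists_low n (insert i f.vars)
  have hf : f ∈ supported k (low n L) := by
    rw [mem_supported]
    intro v hv
    exact hL v (Finset.mem_insert_of_mem hv)
  have hfix : τ f = f := by
    refine fix_supported (τ : PS k n →ₐ[k] PS k n) {v | v ≠ i} (fun v hv => h2 v hv) ?_
    rw [mem_supported]
    intro v hv hvi
    rw [hvi] at hv
    exact hi hv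
  have hsymm : τ.symm (X i) = X i - f := by
    rw [AlgEquiv.symm_apply_eq, map_sub, h1, hfix]
    ring
  refine ⟨L, ?_, ?_⟩
  · intro v hv
    by_cases hvi : v = i
    · subst hvi
      rw [h1, hsymm]
      exact ⟨add_mem (X_mem hv) hf, sub_mem (X_mem hv) hf⟩
    · rw [h2 v hvi, symm_fix (h2 v hvi)]
      exact ⟨X_mem hv, X_mem hv⟩
  · intro v hv
    refine h2 v ?_
    rintro rfl
    exact hv (hL v (Finset.mem_insert_self _ _))

theorem sc {τ : PS k n ≃ₐ[k] PS k n} (h : IsSc τ) : ∃ L, FL L τ := by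
  classical
  obtain ⟨i, c, hc, h1, h2⟩ := h
  obtain ⟨L, hL⟩ := exists_low n {i}
  have hsymm : τ.symm (X i) = C c⁻¹ * X i := by
    rw [AlgEquiv.symm_apply_eq, map_mul, h1]
    have : τ (C c⁻¹) = C c⁻¹ := τ.commutes c⁻¹
    rw [this, ← mul_assoc, ← C_mul, inv_mul_cancel₀ hc, C_1, one_mul]
  have hCm : ∀ a : k, (C a : PS k n) ∈ supported k (low n L) :=
    fun a => (supported k (low n L)).algebraMap_mem a
  refine ⟨L, ?_, ?_⟩
  · intro v hv
    by_cases hvi : v = i
    · subst hvi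
      rw [h1, hsymm]
      exact ⟨mul_mem (hCm _) (X_mem hv), mul_mem (hCm _) (X_mem hv)⟩
    · rw [h2 v hvi, symm_fix (h2 v hvi)]
      exact ⟨X_mem hv, X_mem hv⟩
  · intro v hv
    refine h2 v ?_
    rintro rfl
    exact hv (hL v (Finset.mem_singleton_self _))

theorem one : FL 0 (1 : PS k n ≃ₐ[k] PS k n) :=
  ⟨fun _ hv => ⟨X_mem hv, X_mem hv⟩, fun _ _ => rfl⟩

theorem tame : ∀ τ ∈ Tm k (Vr n), ∃ L, FL L τ := by
  intro τ hτ
  unfold Tm at hτ
  induction hτ using Subgroup.closure_induction with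
  | mem x hx =>
    rcases hx with hx | hx
    · exact el hx
    · exact sc hx
  | one => exact ⟨0, one⟩
  | mul x y _ _ hx hy =>
    obtain ⟨L, hL⟩ := hx
    obtain ⟨L', hL'⟩ := hy
    exact ⟨max L L', mul (mono (le_max_left _ _) hL) (mono (le_max_right _ _) hL')⟩
  | inv x _ hx =>
    obtain ⟨L, hL⟩ := hx
    exact ⟨L, inv hL⟩

end FLL_

theorem stmt_FLL : Stmt_FLL := fun _ _ _ =>
  { mono := FLL_.mono
    mul := FLL_.mul
    inv := FLL_.inv
    tame := FLL_.tame }

end Pool.AM
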